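import Mathlib
import Pool.Agent.X197.AbsTree2

namespace Pool.Agent.Results.MP_079cdc_gt.ThreeValentTree

open Pool.Agent.X197.AbsTree

/-- There is a complete, connected, locally connected, absolutely homogeneous metric space which is
not locally compact. -/
theorem result : ∃ (X : Type) (_ : MetricSpace X), CompleteSpace X ∧ AbsHomogeneous X ∧
    ConnectedSpace X ∧ LocallyConnectedSpace X ∧ ¬ LocallyCompactSpace X :=
  ⟨Pt, inferInstance, inferInstance, absHomogeneous_of Pt.fourPoint Pt.geod Pt.val3, inferInstance,
    inferInstance, not_locallyCompact⟩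

end Pool.Agent.Results.MP_079cdc_gt.ThreeValentTree
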